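import Pool.Agent.helper66.WD.Spec

/-!
# Project WD (MP_dc9173_lc), row FRP
-/

set_option autoImplicit false

universe u

namespace Pool.Agent.WD

open MvPolynomial Pool.Agent.helper92.VC

section FRP

variable {n : ℕ} {K : Type u} [Field K]

/-- the matrices of the program, indexed by the variables -/
noncomputable def FRP_N {w : ℕ} (M : Fin n → Matrix (Fin w) (Fin w) (Polynomial K)) (y : Fin n) :
    Matrix (Fin w) (Fin w) (MvPolynomial (Fin n) K) :=
  (M y).map fun p => Polynomial.aeval (X y : MvPolynomial (Fin n) K) p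

/-- the polynomials without the variable `x` -/
noncomputable def FRP_E (x : Fin n) : Subalgebra K (MvPolynomial (Fin n) K) :=
  AlgHom.equalizer (phi x) (Polynomial.CAlgHom : MvPolynomial (Fin n) K →ₐ[K] _)

theorem FRP_mem (x : Fin n) (p : MvPolynomial (Fin n) K) :
    p ∈ FRP_E x ↔ phi x p = Polynomial.C p := Iff.rfl

theorem FRP_X (x y : Fin n) (h : y ≠ x) : (X y : MvPolynomial (Fin n) K) ∈ FRP_E x := by
  rw [FRP_mem]
  unfold phi
  rw [aeval_X, if_neg h]

theorem FRP_entry {w : ℕ} (M : Fin n → Matrix (Fin w) (Fin w) (Polynomial K)) (x y : Fin n)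
    (h : y ≠ x) (s t : Fin w) : FRP_N M y s t ∈ FRP_E x := by
  show Polynomial.aeval (X y : MvPolynomial (Fin n) K) (M y s t) ∈ FRP_E x
  rw [Polynomial.aeval_eq_sum_range]
  refine Subalgebra.sum_mem _ fun i _ => ?_
  exact Subalgebra.smul_mem _ (Subalgebra.pow_mem _ (FRP_X x y h) i) _

theorem FRP_C (x : Fin n) (c : K) : (C c : MvPolynomial (Fin n) K) ∈ FRP_E x :=
  Subalgebra.algebraMap_mem _ c

theorem FRP_fix {w : ℕ} (M : Fin n → Matrix (Fin w) (Fin w) (Polynomial K)) (v : Fin w → K)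
    (x : Fin n) (l : List (Fin n)) (hl : x ∉ l) (t : Fin w) :
    Matrix.mulVec (l.map (FRP_N M)).prod (fun s => C (v s)) t ∈ FRP_E x := by
  induction l generalizing t with
  | nil =>
    rw [List.map_nil, List.prod_nil, Matrix.one_mulVec]
    exact FRP_C x _
  | cons y l ih =>
    rw [List.mem_cons, not_or] at hl
    rw [List.map_cons, List.prod_cons, ← Matrix.mulVec_mulVec]
    show ∑ r, FRP_N M y t r * _ ∈ FRP_E x
    refine Subalgebra.sum_mem _ fun r _ => Subalgebra.mul_mem _ ?_ (ih hl.2 r)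
    exact FRP_entry M x y (Ne.symm hl.1) t r

theorem FRP_coeff (x : Fin n) (p : Polynomial K) (j : ℕ) :
    (phi x (Polynomial.aeval (X x : MvPolynomial (Fin n) K) p)).coeff j = C (p.coeff j) := by
  rw [← Polynomial.aeval_algHom_apply]
  have h2 : phi x (X x : MvPolynomial (Fin n) K) = Polynomial.X := by
    unfold phi
    rw [aeval_X, if_pos rfl]
  rw [h2, Polynomial.aeval_def, Polynomial.eval₂_eq_sum_range, Polynomial.finsetSum_coeff]
  have h3 : ∀ i, (algebraMap K (Polynomial (MvPolynomial (Fin n) K))) (p.coeff i) =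
      Polynomial.C (C (p.coeff i)) := fun _ => rfl
  by_cases hj : j ∈ Finset.range (p.natDegree + 1)
  · rw [Finset.sum_eq_single_of_mem j hj]
    · rw [h3, Polynomial.coeff_C_mul, Polynomial.coeff_X_pow, if_pos rfl, mul_one]
    · intro i _ hi
      rw [h3, Polynomial.coeff_C_mul, Polynomial.coeff_X_pow, if_neg (Ne.symm hi), mul_zero]
  · have h4 : p.coeff j = 0 := by
      apply Polynomial.coeff_eq_zero_of_natDegree_lt
      rw [Finset.mem_range] at hj
      omega
    rw [h4, map_zero]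
    refine Finset.sum_eq_zero fun i hi => ?_
    have hne : j ≠ i := by
      rintro rfl
      exact hj hi
    rw [h3, Polynomial.coeff_C_mul, Polynomial.coeff_X_pow, if_neg hne, mul_zero]

/-- the functions computed from the left end -/
def FRP_T {w : ℕ} (M : Fin n → Matrix (Fin w) (Fin w) (Polynomial K)) (v : Fin w → K)
    (l : List (Fin n)) : Set (MvPolynomial (Fin n) K) :=
  {q | ∃ u : Fin w → K, q = (fun s => C (u s)) ⬝ᵥ
    Matrix.mulVec (l.map (FRP_N M)).prod (fun s => C (v s))}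

theorem FRP_dim {w : ℕ} (M : Fin n → Matrix (Fin w) (Fin w) (Polynomial K)) (v : Fin w → K)
    (l : List (Fin n)) : DimP w (FRP_T M v l) := by
  refine ⟨fun t => Matrix.mulVec (l.map (FRP_N M)).prod (fun s => C (v s)) t, ?_⟩
  rintro q ⟨u, rfl⟩
  refine Submodule.sum_mem _ fun t _ => ?_
  rw [← MvPolynomial.smul_eq_C_mul]
  exact Submodule.smul_mem _ _ (Submodule.subset_span ⟨t, rfl⟩)

theorem FRP_step {w : ℕ} (M : Fin n → Matrix (Fin w) (Fin w) (Polynomial K)) (v : Fin w → K)
    (x : Fin n) (l : List (Fin n)) (hl : x ∉ l) (q : MvPolynomial (Fin n) K)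
    (hq : q ∈ FRP_T M v (x :: l)) (j : ℕ) : cf x j q ∈ FRP_T M v l := by
  obtain ⟨u, rfl⟩ := hq
  refine ⟨fun t => ∑ s, u s * (M x s t).coeff j, ?_⟩
  have h1 : ((fun s => C (u s)) ⬝ᵥ Matrix.mulVec (((x :: l).map (FRP_N M)).prod)
      (fun s => C (v s)) : MvPolynomial (Fin n) K) =
      ∑ s, C (u s) * ∑ t, FRP_N M x s t *
        Matrix.mulVec (l.map (FRP_N M)).prod (fun s => C (v s)) t := by
    rw [List.map_cons, List.prod_cons, ← Matrix.mulVec_mulVec]
    rfl
  rw [h1]
  unfold cf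
  rw [map_sum, Polynomial.finsetSum_coeff]
  have h2 : ∀ s : Fin w, (phi x (C (u s) * ∑ t, FRP_N M x s t *
        Matrix.mulVec (l.map (FRP_N M)).prod (fun s => C (v s)) t)).coeff j =
      ∑ t, C (u s) * C ((M x s t).coeff j) *
        Matrix.mulVec (l.map (FRP_N M)).prod (fun s => C (v s)) t := by
    intro s
    rw [map_mul, (FRP_mem x _).1 (FRP_C x (u s)), Polynomial.coeff_C_mul, map_sum,
      Polynomial.finsetSum_coeff, Finset.mul_sum]
    refine Finset.sum_congr rfl fun t _ => ?_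
    rw [map_mul, (FRP_mem x _).1 (FRP_fix M v x l hl t), Polynomial.coeff_mul_C]
    have h3 : (phi x (FRP_N M x s t)).coeff j = C ((M x s t).coeff j) :=
      FRP_coeff x (M x s t) j
    rw [h3, mul_assoc]
  simp_rw [h2]
  rw [Finset.sum_comm]
  show _ = ∑ t, C (∑ s, u s * (M x s t).coeff j) * _
  refine Finset.sum_congr rfl fun t _ => ?_
  rw [map_sum, Finset.sum_mul]
  refine Finset.sum_congr rfl fun s _ => ?_
  rw [map_mul]

theorem FRP_mono {w : ℕ} (l : List (Fin n)) : ∀ S S' : Set (MvPolynomial (Fin n) K), S' ⊆ S →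
    RP w l S → RP w l S' := by
  induction l with
  | nil =>
    rintro S S' h ⟨g, hg⟩
    exact ⟨g, fun T hT => hg (h hT)⟩
  | cons x s ih =>
    rintro S S' h ⟨⟨g, hg⟩, h2⟩
    refine ⟨⟨g, fun T hT => hg (h hT)⟩, ih _ _ ?_ h2⟩
    rintro q ⟨p, hp, j, rfl⟩
    exact ⟨p, h hp, j, rfl⟩

theorem FRP_main {w : ℕ} (M : Fin n → Matrix (Fin w) (Fin w) (Polynomial K)) (v : Fin w → K)
    (l : List (Fin n)) (hl : l.Nodup) : RP w l (FRP_T M v l) := by
  induction l with
  | nil => exact FRP_dim M v []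
  | cons x s ih =>
    rw [List.nodup_cons] at hl
    refine ⟨FRP_dim M v (x :: s), FRP_mono s _ _ ?_ (ih hl.2)⟩
    rintro q ⟨p, hp, j, rfl⟩
    exact FRP_step M v x s hl.1 p hp j

end FRP

theorem FRP : FRP_stmt.{u} := by
  intro n K _ w τ A hA
  obtain ⟨M, u, v, hA⟩ := hA
  have hn : (List.ofFn τ).Nodup := List.nodup_ofFn.2 τ.injective
  refine FRP_mono _ _ _ ?_ (FRP_main (fun y => M (τ.symm y)) v (List.ofFn τ) hn)
  rintro q hq
  rw [Set.mem_singleton_iff] at hq
  refine ⟨u, ?_⟩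
  rw [hq, hA, List.map_ofFn]
  have h1 : (fun i : Fin n => (M i).map fun p =>
      Polynomial.aeval (X (τ i) : MvPolynomial (Fin n) K) p) =
      (FRP_N (fun y => M (τ.symm y))) ∘ τ := by
    funext i
    show _ = (M (τ.symm (τ i))).map _
    rw [Equiv.symm_apply_apply]
  rw [h1]

end Pool.Agent.WD
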