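import Pool.Agent.helper66.WD.Spec

/-!
# Project WD (MP_dc9173_lc), row HOP
-/

set_option autoImplicit false

universe u

namespace Pool.Agent.WD

open MvPolynomial Pool.Agent.helper92.VC

section HOP

variable {n : ℕ} {K : Type u} [Field K]

theorem HOP_phi0 (x : Fin n) (m : Fin n →₀ ℕ) (hm : m x = 0) (c : K) :
    phi x (monomial m c) = Polynomial.C (monomial m c) := by
  unfold phi
  rw [aeval_monomial]
  have h1 : (m.prod fun i k => (if i = x then (Polynomial.X : Polynomial (MvPolynomial (Fin n) K))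
      else Polynomial.C (X i)) ^ k) = Polynomial.C (m.prod fun i k => X i ^ k) := by
    rw [Finsupp.prod, Finsupp.prod, map_prod]
    refine Finset.prod_congr rfl fun i hi => ?_
    have hne : i ≠ x := by
      rintro rfl
      exact (Finsupp.mem_support_iff.1 hi) hm
    rw [if_neg hne, map_pow]
  rw [h1]
  have h2 : (algebraMap K (Polynomial (MvPolynomial (Fin n) K))) c = Polynomial.C (C c) := rfl
  rw [h2, ← map_mul]
  congr 1
  rw [monomial_eq]

theorem HOP_phi (x : Fin n) (m : Fin n →₀ ℕ) (c : K) :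
    phi x (monomial m c) = Polynomial.monomial (m x) (monomial (m.erase x) c) := by
  have h1 : monomial m c = monomial (m.erase x) c * X x ^ (m x) := by
    rw [X_pow_eq_monomial, monomial_mul, mul_one, Finsupp.erase_add_single]
  rw [h1, map_mul, HOP_phi0 x (m.erase x) (by simp) c, map_pow]
  have h2 : phi x (X x : MvPolynomial (Fin n) K) = Polynomial.X := by
    unfold phi
    rw [aeval_X, if_pos rfl]
  rw [h2, Polynomial.C_mul_X_pow_eq_monomial]

theorem HOP_cf (x : Fin n) (a : ℕ) (m : Fin n →₀ ℕ) (c : K) :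
    cf x a (monomial m c) = if m x = a then monomial (m.erase x) c else 0 := by
  unfold cf
  rw [HOP_phi, Polynomial.coeff_monomial]

theorem HOP_cf_add (x : Fin n) (a : ℕ) (p q : MvPolynomial (Fin n) K) :
    cf x a (p + q) = cf x a p + cf x a q := by
  unfold cf
  rw [map_add, Polynomial.coeff_add]

theorem HOP_cf_zero (x : Fin n) (a : ℕ) : cf x a (0 : MvPolynomial (Fin n) K) = 0 := by
  unfold cf
  rw [map_zero, Polynomial.coeff_zero]

theorem HOP_hc (j : ℕ) (m : Fin n →₀ ℕ) (c : K) :
    homogeneousComponent j (monomial m c) = if m.degree = j then monomial m c else 0 := by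
  ext d
  rw [coeff_homogeneousComponent]
  by_cases h : m.degree = j
  · rw [if_pos h, coeff_monomial]
    by_cases hd : m = d
    · subst hd
      rw [if_pos h, if_pos rfl]
    · rw [if_neg hd, ite_self]
  · rw [if_neg h, coeff_monomial, coeff_zero]
    by_cases hd : m = d
    · subst hd
      rw [if_neg h]
    · rw [if_neg hd, ite_self]

theorem HOP_deg (x : Fin n) (m : Fin n →₀ ℕ) : m.degree = (m.erase x).degree + m x := by
  conv_lhs => rw [← Finsupp.erase_add_single x m]
  rw [map_add]
  congr 1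
  exact Finsupp.degree_single x (m x)

theorem HOP_main (x : Fin n) (a j : ℕ) (p : MvPolynomial (Fin n) K) :
    cf x a (homogeneousComponent j p) =
      if a ≤ j then homogeneousComponent (j - a) (cf x a p) else 0 := by
  induction p using MvPolynomial.induction_on' with
  | monomial m c =>
    have hd := HOP_deg x m
    rw [HOP_hc, HOP_cf]
    by_cases h1 : m x = a
    · by_cases h2 : m.degree = j
      · rw [if_pos h2, if_pos h1, HOP_cf, if_pos h1, if_pos (by omega), HOP_hc, if_pos (by omega)]
      · rw [if_neg h2, if_pos h1, HOP_cf_zero]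
        by_cases h3 : a ≤ j
        · rw [if_pos h3, HOP_hc, if_neg (by omega)]
        · rw [if_neg h3]
    · rw [if_neg h1, map_zero, ite_self]
      by_cases h2 : m.degree = j
      · rw [if_pos h2, HOP_cf, if_neg h1]
      · rw [if_neg h2, HOP_cf_zero]
  | add p q hp hq =>
    rw [map_add, HOP_cf_add, hp, hq, HOP_cf_add]
    by_cases h3 : a ≤ j
    · rw [if_pos h3, if_pos h3, if_pos h3, map_add]
    · rw [if_neg h3, if_neg h3, if_neg h3, add_zero]

theorem HOP_dim (w D : ℕ) (S : Set (MvPolynomial (Fin n) K)) (h : DimP w S) :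
    DimP (w * (D + 1)) {q | ∃ p ∈ S, ∃ j ≤ D, q = homogeneousComponent j p} := by
  obtain ⟨g, hg⟩ := h
  refine ⟨fun i => homogeneousComponent ((finProdFinEquiv.symm i).2 : ℕ)
    (g (finProdFinEquiv.symm i).1), ?_⟩
  rintro q ⟨p, hp, j, hj, rfl⟩
  have h1 : homogeneousComponent j p ∈
      Submodule.map (homogeneousComponent j) (Submodule.span K (Set.range g)) :=
    Submodule.mem_map_of_mem (hg hp)
  rw [Submodule.map_span] at h1
  refine Submodule.span_mono ?_ h1
  rintro _ ⟨_, ⟨a, rfl⟩, rfl⟩
  refine ⟨finProdFinEquiv (a, ⟨j, by omega⟩), ?_⟩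
  show homogeneousComponent
    ((finProdFinEquiv.symm (finProdFinEquiv (a, (⟨j, by omega⟩ : Fin (D + 1))))).2 : ℕ)
    (g (finProdFinEquiv.symm (finProdFinEquiv (a, (⟨j, by omega⟩ : Fin (D + 1))))).1) = _
  rw [Equiv.symm_apply_apply]

end HOP

theorem HOP (hMNP : MNP_stmt.{u}) (hSPP : SPP_stmt.{u}) : HOP_stmt.{u} := by
  intro n K _ w D l
  induction l with
  | nil =>
    intro S hS
    exact HOP_dim w D S hS
  | cons x s ih =>
    intro S hS
    obtain ⟨h1, h2⟩ := hS
    refine ⟨HOP_dim w D S h1, ?_⟩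
    have h3 := ih _ h2
    have h4 := hSPP n K _ s _ h3
    refine hMNP n K _ _ s _ _ le_rfl ?_ h4
    rintro q ⟨_, ⟨p, hp, j, hj, rfl⟩, a, rfl⟩
    rw [HOP_main]
    by_cases ha : a ≤ j
    · rw [if_pos ha]
      refine Submodule.subset_span ?_
      exact ⟨cf x a p, ⟨p, hp, a, rfl⟩, j - a, by omega, rfl⟩
    · rw [if_neg ha]
      exact Submodule.zero_mem _

end Pool.Agent.WD
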