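import Pool.Agent.helper66.WD.Spec

/-!
# Project WD (MP_dc9173_lc), row PRP
-/

set_option autoImplicit false

universe u

namespace Pool.Agent.WD

open MvPolynomial Pool.Agent.helper92.VC

theorem PRP_dim {n : ℕ} {K : Type u} [Field K] (w w' : ℕ) (S S' : Set (MvPolynomial (Fin n) K))
    (h : DimP w S) (h' : DimP w' S') : DimP (w * w') {q | ∃ p ∈ S, ∃ p' ∈ S', q = p * p'} := by
  obtain ⟨g, hg⟩ := h
  obtain ⟨g', hg'⟩ := h'
  refine ⟨fun i => g (finProdFinEquiv.symm i).1 * g' (finProdFinEquiv.symm i).2, ?_⟩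
  rintro q ⟨p, hp, p', hp', rfl⟩
  have h1 : p * p' ∈ Submodule.span K (Set.range g) * Submodule.span K (Set.range g') :=
    Submodule.mul_mem_mul (hg hp) (hg' hp')
  rw [Submodule.span_mul_span] at h1
  refine Submodule.span_mono ?_ h1
  rintro _ ⟨_, ⟨a, rfl⟩, _, ⟨b, rfl⟩, rfl⟩
  refine ⟨finProdFinEquiv (a, b), ?_⟩
  show g (finProdFinEquiv.symm (finProdFinEquiv (a, b))).1 *
    g' (finProdFinEquiv.symm (finProdFinEquiv (a, b))).2 = _
  rw [Equiv.symm_apply_apply]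

theorem PRP (hMNP : MNP_stmt.{u}) (hSPP : SPP_stmt.{u}) : PRP_stmt.{u} := by
  intro n K _ w w' l
  induction l with
  | nil =>
    intro S S' hS hS'
    exact PRP_dim w w' S S' hS hS'
  | cons x s ih =>
    intro S S' hS hS'
    obtain ⟨h1, h2⟩ := hS
    obtain ⟨h1', h2'⟩ := hS'
    refine ⟨PRP_dim w w' S S' h1 h1', ?_⟩
    have h3 := ih _ _ h2 h2'
    have h4 := hSPP n K _ s _ h3
    refine hMNP n K _ _ s _ _ le_rfl ?_ h4
    rintro q ⟨_, ⟨p, hp, p', hp', rfl⟩, j, rfl⟩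
    have h5 : cf x j (p * p') =
        ∑ c ∈ Finset.HasAntidiagonal.antidiagonal j, cf x c.1 p * cf x c.2 p' := by
      unfold cf
      rw [map_mul, Polynomial.coeff_mul]
    rw [h5]
    refine Submodule.sum_mem _ fun c _ => Submodule.subset_span ?_
    exact ⟨cf x c.1 p, ⟨p, hp, c.1, rfl⟩, cf x c.2 p', ⟨p', hp', c.2, rfl⟩, rfl⟩

end Pool.Agent.WD
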