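import Pool.Agent.helper92.VC.All
import Pool.Agent.helper5.WD.REL
import Pool.Agent.helper5.WD.KIL
import Pool.Agent.helper5.WD.CMP
import Pool.Agent.helper53.WD.EXP
import Pool.Agent.helper60.WD.HHL
import Pool.Agent.helper52.WD.DER
import Pool.Agent.helper72.WD.DEM
import Pool.Agent.helper68.WD.MNP
import Pool.Agent.helper68.WD.SPP
import Pool.Agent.helper68.WD.UNP
import Pool.Agent.helper66.WD.PRP
import Pool.Agent.helper80.WD.SYP
import Pool.Agent.helper66.WD.HOP
import Pool.Agent.helper68.WD.SHP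
import Pool.Agent.helper66.WD.FRP
import Pool.Agent.helper41.WD.TOP
import Pool.Agent.helper48.WD.LIN
import Pool.Agent.helper3.WD.LRX
import Pool.Agent.helper68.WD.LNA
import Pool.Agent.helper74.WD.SM1
import Pool.Agent.helper3.WD.SM2
import Pool.Agent.helper65.WD.SML
import Pool.Agent.helper65.WD.LHI
import Pool.Agent.helper72.WD.RUN
import Pool.Agent.helper96.WD.NRM
import Pool.Agent.helper62.WD.NZR
import Pool.Agent.helper85.WD.GEN
import Pool.Agent.helper74.WD.EXR
import Pool.Agent.helper62.WD.RED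
import Pool.Agent.helper51.WD.RCO
import Pool.Agent.helper85.WD.SDG
import Pool.Agent.helper32.WD.SUB
import Pool.Agent.helper62.WD.ODA
import Pool.Agent.helper62.WD.ODC
import Pool.Agent.helper62.WD.ODE
import Pool.Agent.helper57.WD.MAI
import Pool.Agent.helper87.WD.RTW
import Pool.Agent.helper96.WD.MBD
import Pool.Agent.helper52.WD.FIW

/-! The rows put together. -/

universe u

namespace Pool.Agent.WD

theorem REL_all : REL_stmt.{u} :=
  REL

theorem KIL_all : KIL_stmt.{u} :=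
  KIL

theorem CMP_all : CMP_stmt.{u} :=
  CMP

theorem EXP_all : EXP_stmt.{u} :=
  EXP

theorem HHL_all : HHL_stmt.{u} :=
  HHL

theorem DER_all : DER_stmt.{u} :=
  DER

theorem DEM_all : DEM_stmt.{u} :=
  DEM

theorem MNP_all : MNP_stmt.{u} :=
  MNP

theorem SPP_all : SPP_stmt.{u} :=
  SPP

theorem UNP_all : UNP_stmt.{u} :=
  UNP

theorem PRP_all : PRP_stmt.{u} :=
  PRP MNP_all SPP_all

theorem SYP_all : SYP_stmt.{u} :=
  SYP MNP_all SPP_all

theorem HOP_all : HOP_stmt.{u} :=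
  HOP MNP_all SPP_all

theorem SHP_all : SHP_stmt.{u} :=
  SHP MNP_all SPP_all

theorem FRP_all : FRP_stmt.{u} :=
  FRP

theorem TOP_all : TOP_stmt.{u} :=
  TOP

theorem LIN_all : LIN_stmt.{u} :=
  LIN

theorem LRX_all : LRX_stmt.{u} :=
  LRX MNP_all SPP_all UNP_all PRP_all

theorem LNA_all : LNA_stmt.{u} :=
  LNA FRP_all SHP_all HOP_all MNP_all LIN_all

theorem SM1_all : SM1_stmt.{u} :=
  SM1 FRP_all SHP_all UNP_all SYP_all HOP_all SPP_all MNP_all

theorem SM2_all : SM2_stmt.{u} :=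
  SM2 LIN_all

theorem SML_all : SML_stmt.{u} :=
  SML SM1_all SM2_all SPP_all PRP_all MNP_all LRX_all

theorem LHI_all : LHI_stmt.{u} :=
  LHI LNA_all SML_all LRX_all

theorem RUN_all : RUN_stmt.{u} :=
  RUN LRX_all

theorem NRM_all : NRM_stmt.{u} :=
  NRM

theorem NZR_all : NZR_stmt.{u} :=
  NZR NRM_all

theorem GEN_all : GEN_stmt.{u} :=
  GEN

theorem EXR_all : EXR_stmt.{u} :=
  EXR REL_all KIL_all EXP_all DER_all

theorem RED_all : RED_stmt.{u} :=
  RED EXR_all NRM_all GEN_all CMP_all HHL_all DER_all DEM_all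

theorem RCO_all : RCO_stmt.{u} :=
  RCO DEM_all SHP_all HOP_all MNP_all TOP_all (Pool.Agent.helper92.VC.POL_all.{u}) (Pool.Agent.helper92.VC.CST Pool.Agent.helper92.VC.COE)

theorem SDG_all : SDG_stmt.{u} :=
  SDG

theorem SUB_all : SUB_stmt.{u} :=
  SUB

theorem ODA_all : ODA_stmt.{u} :=
  ODA LIN_all

theorem ODC_all : ODC_stmt.{u} :=
  ODC

theorem ODE_all : ODE_stmt.{u} :=
  ODE ODA_all ODC_all SDG_all SUB_all

theorem MAI_all : MAI_stmt.{u} :=
  MAI NZR_all RED_all LHI_all RUN_all LRX_all RCO_all ODE_all MNP_all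

theorem RTW_all : RTW_stmt.{u} :=
  RTW

theorem MBD_all : MBD_stmt :=
  MBD

theorem FIW_all : FIW_stmt.{u} :=
  FIW MAI_all RTW_all MBD_all Pool.Agent.helper92.VC.PBD Pool.Agent.helper92.VC.VNV

end Pool.Agent.WD
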