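import Pool.Agent.helper92.VC.Defs

/-!
# Sums of constantly many products of arbitrary powers of branching programs

Definitions for the debordering theorem of project WD (MP_dc9173_lc).
-/

namespace Pool.Agent.WD

open MvPolynomial Pool.Agent.helper92.VC

/-- `A` is computed by a read-once oblivious algebraic branching program of width `w` in the
order `τ` of the variables: `A = uᵀ M_1(X_{τ 1}) ⋯ M_n(X_{τ n}) v` with `w × w` matrices `M i` of
univariate polynomials and vectors `u, v` of constants. -/
def IsROABPOrd {K : Type*} [CommRing K] {n : ℕ} (τ : Equiv.Perm (Fin n)) (w : ℕ)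
    (A : MvPolynomial (Fin n) K) : Prop :=
  ∃ (M : Fin n → Matrix (Fin w) (Fin w) (Polynomial K)) (u v : Fin w → K),
    A = (fun s => C (u s)) ⬝ᵥ
      (Matrix.mulVec (List.ofFn fun i : Fin n =>
        (M i).map fun p => Polynomial.aeval (X (τ i) : MvPolynomial (Fin n) K) p).prod
        (fun s => C (v s)))

/-- A local factor: an arbitrary polynomial `Q` in `c` read-once oblivious algebraic branching
programs of width `c` in the order `τ`. -/
def IsLocal {K : Type*} [CommRing K] {n : ℕ} (τ : Equiv.Perm (Fin n)) (c : ℕ)
    (P : MvPolynomial (Fin n) K) : Prop :=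
  ∃ (g : Fin c → MvPolynomial (Fin n) K) (Q : MvPolynomial (Fin c) K),
    (∀ i, IsROABPOrd τ c (g i)) ∧ P = aeval g Q

/-- `G` is a linear combination of `c` products of powers, with arbitrary exponents, of `c`
read-once oblivious algebraic branching programs of width `w` and of `w` local factors, all in one
order of the variables. -/
def IsSumPow {K : Type*} [CommRing K] {n : ℕ} (c w : ℕ) (G : MvPolynomial (Fin n) K) : Prop :=
  ∃ (τ : Equiv.Perm (Fin n)) (A : Fin c → MvPolynomial (Fin n) K)
    (P : Fin w → MvPolynomial (Fin n) K) (κ : Fin c → K) (a : Fin c → Fin c → ℕ)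
    (p : Fin c → Fin w → ℕ),
    (∀ j, IsROABPOrd τ w (A j)) ∧ (∀ j, IsLocal τ c (P j)) ∧
    G = ∑ i, C (κ i) * (∏ j, A j ^ a i j) * ∏ j, P j ^ p i j

end Pool.Agent.WD
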