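import Pool.Agent.helper66.WD.Defs
import Pool.Agent.helper92.VC.Spec

/-!
# Project WD: debordering sums of constantly many products of arbitrary powers

Paper proof: /team-store/MP_dc9173_WD_PAGE_helper66.md. All rows with complete proofs in the
docstrings. `line α p = p(α + z x)` as a power series in `z`.
-/

universe u

namespace Pool.Agent.WD

open MvPolynomial Pool.Agent.helper92.VC

section defs

variable {K : Type*} [CommRing K] {n : ℕ}

/-- The translation `p ↦ p(X + α)`. -/
noncomputable def shift (α : Fin n → K) : MvPolynomial (Fin n) K →ₐ[K] MvPolynomial (Fin n) K :=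
  aeval fun l => X l + C (α l)

/-- `p ↦ p(α + z X)`, a power series in `z`. -/
noncomputable def line (α : Fin n → K) :
    MvPolynomial (Fin n) K →ₐ[K] PowerSeries (MvPolynomial (Fin n) K) :=
  aeval fun l => PowerSeries.C (C (α l)) + PowerSeries.X * PowerSeries.C (X l)

/-- The polynomials in the positions `inl l` inside those in positions and directions. -/
noncomputable def emb : MvPolynomial (Fin n) K →ₐ[K] MvPolynomial (Fin n ⊕ Fin n) K :=
  rename Sum.inl

/-- `q(X, x) ↦ q(α + z x, x)`. -/
noncomputable def line2 (α : Fin n → K) :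
    MvPolynomial (Fin n ⊕ Fin n) K →ₐ[K] PowerSeries (MvPolynomial (Fin n) K) :=
  aeval (Sum.elim (fun l => PowerSeries.C (C (α l)) + PowerSeries.X * PowerSeries.C (X l))
    fun l => PowerSeries.C (X l))

/-- The derivation `∑ x_l ∂/∂X_l`. -/
noncomputable def DD (q : MvPolynomial (Fin n ⊕ Fin n) K) : MvPolynomial (Fin n ⊕ Fin n) K :=
  ∑ l, X (Sum.inr l) * pderiv (Sum.inl l) q

/-- The derivation `∂/∂z`. -/
noncomputable def dz (h : PowerSeries (MvPolynomial (Fin n) K)) :
    PowerSeries (MvPolynomial (Fin n) K) :=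
  PowerSeries.derivative (MvPolynomial (Fin n) K) h

/-- Split off the variable `x`. -/
noncomputable def phi (x : Fin n) :
    MvPolynomial (Fin n) K →ₐ[K] Polynomial (MvPolynomial (Fin n) K) :=
  aeval fun y => if y = x then Polynomial.X else Polynomial.C (X y)

/-- The coefficient of `x ^ j`, a polynomial without the variable `x`. -/
noncomputable def cf (x : Fin n) (j : ℕ) (p : MvPolynomial (Fin n) K) : MvPolynomial (Fin n) K :=
  (phi x p).coeff j

/-- The set `S` lies in the span of `w` polynomials. -/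
def DimP (w : ℕ) (S : Set (MvPolynomial (Fin n) K)) : Prop :=
  ∃ g : Fin w → MvPolynomial (Fin n) K,
    S ⊆ (Submodule.span K (Set.range g) : Set (MvPolynomial (Fin n) K))

/-- Nisan's condition for sets of polynomials. -/
def RP (w : ℕ) : List (Fin n) → Set (MvPolynomial (Fin n) K) → Prop
  | [], S => DimP w S
  | x :: s, S => DimP w S ∧ RP w s {q | ∃ p ∈ S, ∃ j, q = cf x j p}

/-- The coefficients up to degree `D` of a power series. -/
def JJ (D : ℕ) (h : PowerSeries (MvPolynomial (Fin n) K)) : Set (MvPolynomial (Fin n) K) :=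
  {q | ∃ j ≤ D, q = PowerSeries.coeff j h}

/-- Nisan's condition for the coefficients up to degree `D` of a power series. -/
def LR (w : ℕ) (l : List (Fin n)) (D : ℕ) (h : PowerSeries (MvPolynomial (Fin n) K)) : Prop :=
  RP w l (JJ D h)

/-- The homogeneous components up to degree `D` of the products of at most `D` of the polynomials
`g i (α + X) - g i (α)`. -/
def VV {c : ℕ} (D : ℕ) (g : Fin c → MvPolynomial (Fin n) K) (α : Fin n → K) :
    Set (MvPolynomial (Fin n) K) :=
  {q | ∃ L : List (MvPolynomial (Fin n) K),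
    (∀ p ∈ L, ∃ i, p = shift α (g i) - C (eval α (g i))) ∧ L.length ≤ D ∧
    ∃ j ≤ D, q = homogeneousComponent j L.prod}

end defs

section recursion

/-- A derivation. -/
structure IsDer {B : Type*} [CommRing B] (d : B → B) : Prop where
  add : ∀ a b, d (a + b) = d a + d b
  mul : ∀ a b, d (a * b) = a * d b + b * d a

variable {B : Type*} [CommRing B] {c : ℕ}

/-- One step for the coefficients of the terms: the term `t` is killed. -/
def stepR (d : B → B) (Lam : B) (h : Fin c → B) (t : Fin c) (ρ : Fin c → B) : Fin c → B :=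
  fun i => ρ t * (Lam * d (ρ i) + h i * ρ i) - (Lam * d (ρ t) + h t * ρ t) * ρ i

/-- One step for the coefficients of the operator. -/
def stepC (d : B → B) (Lam : B) (h : Fin c → B) (t : Fin c) (ρ : Fin c → B) (C : ℕ → B) : ℕ → B :=
  fun m => ρ t * Lam * (d (C m) + if m = 0 then 0 else C (m - 1)) -
    (Lam * d (ρ t) + h t * ρ t) * C m

/-- The steps for the indices in the list (the last index of the list first). -/
def run (d : B → B) (Lam : B) (h : Fin c → B) : List (Fin c) → (Fin c → B) × (ℕ → B)
  | [] => (fun _ => 1, fun m => if m = 0 then 1 else 0)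
  | t :: L => (stepR d Lam h t (run d Lam h L).1,
      stepC d Lam h t (run d Lam h L).1 (run d Lam h L).2)

/-- `h` for the exact version (no inverses), with `Lam = (∏ A) * (∏ P)`. -/
def hh (d : B → B) {w : ℕ} (A : Fin c → B) (P : Fin w → B) (a : Fin c → ℕ) (p : Fin w → ℕ) : B :=
  (∏ j, P j) * (∑ j, (a j : B) * d (A j) * ∏ l ∈ Finset.univ.erase j, A l) +
    (∏ j, A j) * ∑ j, (p j : B) * d (P j) * ∏ l ∈ Finset.univ.erase j, P l

/-- `h` for the version along a line, `v j` the inverse of `P j`, with `Lam = ∏ A`. -/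
def hl (d : B → B) {w : ℕ} (A : Fin c → B) (P v : Fin w → B) (a : Fin c → ℕ) (p : Fin w → ℕ) : B :=
  (∑ j, (a j : B) * d (A j) * ∏ l ∈ Finset.univ.erase j, A l) +
    (∏ j, A j) * ∑ j, (p j : B) * d (P j) * v j

end recursion

/-! ### Block R: the recursion -/

/-- REL. Induction on `L`. From `d 0 = 0`, `d` of a finite sum is the sum; if
`∑ m ≤ |L|, C m * d^[m] G = ∑ i, ρ i * E i =: Y` then the new left side is
`ρ t * Lam * d Y - (Lam * d (ρ t) + h t * ρ t) * Y` computed from the left (`C m = 0` for
`m > |L|` is used for the top term), and the new right side is the same computed from the right,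
with `Lam * d (E i) = h i * E i`. -/
def REL_stmt : Prop := ∀ (B : Type u) [CommRing B] (d : B → B), IsDer d → ∀ (c : ℕ) (Lam : B)
  (h E : Fin c → B), (∀ i, Lam * d (E i) = h i * E i) → ∀ L : List (Fin c),
  (∀ m, L.length < m → (run d Lam h L).2 m = 0) ∧
  ∑ m ∈ Finset.range (L.length + 1), (run d Lam h L).2 m * d^[m] (∑ i, E i) =
    ∑ i, (run d Lam h L).1 i * E i

/-- KIL. In a domain. By induction on `s ≤ c` there is `L` with `|L| ≤ s`, `ρ i = 0` for all
`i < s` and `C |L| ≠ 0`: if `ρ ⟨s⟩ = 0` take the same `L`, otherwise `⟨s⟩ :: L`; the step keeps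
zeros zero (`d 0 = 0`), kills the index `⟨s⟩`, and the new top coefficient is
`ρ t * Lam * C |L|` (as `C (|L|+1) = 0`, first part of REL, which may be proved inline). -/
def KIL_stmt : Prop := ∀ (B : Type u) [CommRing B] [IsDomain B] (d : B → B), IsDer d →
  ∀ (c : ℕ) (Lam : B) (h : Fin c → B), Lam ≠ 0 → ∃ L : List (Fin c), L.length ≤ c ∧
    (∀ i, (run d Lam h L).1 i = 0) ∧ (run d Lam h L).2 L.length ≠ 0

/-- CMP. Comparison of two recursions along a ring homomorphism `σ` which commutes with the
derivations, `σ Lam = u * Lam'`, `σ (h i) = u * h' i`. Induction on `L` with the exponent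
`N = 2 ^ |L| - 1`, `N ↦ 2 N + 1`: `d' (u^N * b) = u^N * d' b + N * u^(N-1) * d' u * b`
(`N = 0` separately or `Lam * d'(u^N b) * u = ...`), the terms with `d' u` cancel. -/
def CMP_stmt : Prop := ∀ (B B' : Type u) [CommRing B] [CommRing B'] (σ : B →+* B') (d : B → B)
  (d' : B' → B'), IsDer d → IsDer d' → (∀ b, σ (d b) = d' (σ b)) → ∀ (c : ℕ) (Lam : B)
  (Lam' u : B') (h : Fin c → B) (h' : Fin c → B'), σ Lam = u * Lam' →
  (∀ i, σ (h i) = u * h' i) → ∀ L : List (Fin c),
  (∀ i, σ ((run d Lam h L).1 i) = u ^ (2 ^ L.length - 1) * (run d' Lam' h' L).1 i) ∧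
  (∀ m, σ ((run d Lam h L).2 m) = u ^ (2 ^ L.length - 1) * (run d' Lam' h' L).2 m)

/-- EXP. Logarithmic derivative of a product of powers. First for one family over a finset:
`(∏ A) * d (∏ A^a) = (∑ a_j * d(A_j) * ∏_{l ≠ j} A_l) * ∏ A^a` (induction on the finset or on `c`
with `Fin.prod_univ_succ`; `A * d (A^a) = a * d A * A^a`), then Leibniz. -/
def EXP_stmt : Prop := ∀ (B : Type u) [CommRing B] (d : B → B), IsDer d → ∀ (c w : ℕ)
  (A : Fin c → B) (P : Fin w → B) (κ : B) (a : Fin c → ℕ) (p : Fin w → ℕ), d κ = 0 →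
  ((∏ j, A j) * ∏ j, P j) * d (κ * (∏ j, A j ^ a j) * ∏ j, P j ^ p j) =
    hh d A P a p * (κ * (∏ j, A j ^ a j) * ∏ j, P j ^ p j)

/-- HHL. `∏_{l ≠ j} P l = (∏ P) * v j` as `P j * v j = 1`. -/
def HHL_stmt : Prop := ∀ (B : Type u) [CommRing B] (d : B → B) (c w : ℕ)
  (A : Fin c → B) (P v : Fin w → B) (a : Fin c → ℕ) (p : Fin w → ℕ), (∀ j, P j * v j = 1) →
  hh d A P a p = (∏ j, P j) * hl d A P v a p

/-- DER. Facts about `DD`, `dz`, `line`, `line2`. For `dz (line2 α q) = line2 α (DD q)`: both
sides are derivations along `line2 α` which agree on constants and variables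
(`MvPolynomial.induction_on`). -/
def DER_stmt : Prop := ∀ (n : ℕ) (K : Type u) [CommRing K],
  IsDer (DD : MvPolynomial (Fin n ⊕ Fin n) K → MvPolynomial (Fin n ⊕ Fin n) K) ∧
  IsDer (dz : PowerSeries (MvPolynomial (Fin n) K) → PowerSeries (MvPolynomial (Fin n) K)) ∧
  (∀ a : K, DD (C a : MvPolynomial (Fin n ⊕ Fin n) K) = 0) ∧
  (∀ (α : Fin n → K) q, dz (line2 α q) = line2 α (DD q)) ∧
  (∀ (α : Fin n → K) p, line2 α (emb p) = line α p) ∧
  (∀ (α β : Fin n → K) q, eval β (PowerSeries.coeff 0 (line2 α q)) = eval (Sum.elim α β) q) ∧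
  (∀ (α : Fin n → K) p, PowerSeries.coeff 0 (line α p) = C (eval α p))

/-- DEM. Change of rings: everything is defined over the integers. -/
def DEM_stmt : Prop := ∀ (n : ℕ) (K k : Type u) [CommRing K] [CommRing k] (π : K →+* k),
  (∀ q, MvPolynomial.map π (DD q : MvPolynomial (Fin n ⊕ Fin n) K) =
    DD (MvPolynomial.map π q)) ∧
  (∀ p : MvPolynomial (Fin n) K, MvPolynomial.map π (emb p) = emb (MvPolynomial.map π p)) ∧
  (∀ h, PowerSeries.map (MvPolynomial.map π) (dz h : PowerSeries (MvPolynomial (Fin n) K)) =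
    dz (PowerSeries.map (MvPolynomial.map π) h)) ∧
  (∀ (α : Fin n → K) q, PowerSeries.map (MvPolynomial.map π) (line2 α q) =
    line2 (fun l => π (α l)) (MvPolynomial.map π q)) ∧
  (∀ (α : Fin n → K) p, PowerSeries.map (MvPolynomial.map π) (line α p) =
    line (fun l => π (α l)) (MvPolynomial.map π p)) ∧
  (∀ (α : Fin n → K) p, MvPolynomial.map π (shift α p) =
    shift (fun l => π (α l)) (MvPolynomial.map π p)) ∧
  (∀ j (p : MvPolynomial (Fin n) K), MvPolynomial.map π (homogeneousComponent j p) =
    homogeneousComponent j (MvPolynomial.map π p))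

/-! ### Block K: small rank -/

/-- MNP. Monotone. Induction on `l` (extend `g` by zero). -/
def MNP_stmt : Prop := ∀ (n : ℕ) (K : Type u) [Field K] (w w' : ℕ) (l : List (Fin n))
  (S S' : Set (MvPolynomial (Fin n) K)), w ≤ w' → S' ⊆ S → RP w l S → RP w' l S'

/-- SPP. The span. Induction on `l`: `cf x j` is linear, so the coefficients of elements of
`span S` lie in the span of the coefficients of elements of `S`; monotonicity inline. -/
def SPP_stmt : Prop := ∀ (n : ℕ) (K : Type u) [Field K] (w : ℕ) (l : List (Fin n))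
  (S : Set (MvPolynomial (Fin n) K)),
  RP w l S → RP w l (Submodule.span K S : Set (MvPolynomial (Fin n) K))

/-- UNP. Unions: widths add. -/
def UNP_stmt : Prop := ∀ (n : ℕ) (K : Type u) [Field K] (w m : ℕ) (l : List (Fin n))
  (S : Fin m → Set (MvPolynomial (Fin n) K)), (∀ i, RP w l (S i)) → RP (m * w) l (⋃ i, S i)

/-- PRP. Products: widths multiply. Induction on `l`; the products of elements of
`span (range g)` and `span (range g')` lie in the span of the `g a * g' b`, and
`cf x j (p * q) = ∑ cf x a p * cf x b q` over `a + b = j` (`Polynomial.coeff_mul`), so SPP for the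
induction hypothesis and monotonicity. -/
def PRP_stmt : Prop := ∀ (n : ℕ) (K : Type u) [Field K] (w w' : ℕ) (l : List (Fin n))
  (S S' : Set (MvPolynomial (Fin n) K)), RP w l S → RP w' l S' →
  RP (w * w') l {q | ∃ p ∈ S, ∃ p' ∈ S', q = p * p'}

/-- SYP. Products of at most `D` elements. Induction on `l`. If `S ⊆ span (range g)` then a
product of at most `D` elements lies in the span of the `∏ a, g a ^ e a` with
`e : Fin w → Fin (D + 1)` (more than needed), which are `(D+1)^w` polynomials: e.g. the product of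
exactly `m ≤ D` elements lies in the span of the monomials with `∑ e = m`, by induction on `m`.
The coefficients `cf x j` of such a product lie in the span of the products of the same number of
elements of `{cf x a p | p ∈ S}` (induction on the number of factors); SPP and monotonicity. -/
def SYP_stmt : Prop := ∀ (n : ℕ) (K : Type u) [Field K] (w D : ℕ) (l : List (Fin n))
  (S : Set (MvPolynomial (Fin n) K)), RP w l S →
  RP ((D + 1) ^ w) l {q | ∃ L : List (MvPolynomial (Fin n) K),
    (∀ p ∈ L, p ∈ S) ∧ L.length ≤ D ∧ q = L.prod}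

/-- HOP. Homogeneous components up to degree `D`. Induction on `l`:
`cf x a (homogeneousComponent j p)` is `homogeneousComponent (j - a) (cf x a p)` for `a ≤ j` and
`0` otherwise (check on monomials, both sides are linear in `p`). The first part: components of
elements of `span (range g)` lie in the span of the components of the `g a`. -/
def HOP_stmt : Prop := ∀ (n : ℕ) (K : Type u) [Field K] (w D : ℕ) (l : List (Fin n))
  (S : Set (MvPolynomial (Fin n) K)), RP w l S →
  RP (w * (D + 1)) l {q | ∃ p ∈ S, ∃ j ≤ D, q = homogeneousComponent j p}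

/-- SHP. Translations. Induction on `l`: `cf x j (shift α p)` lies in the span of the
`shift α (cf x a p)`. Indeed `p = ∑ a, X x ^ a * cf x a p`, so
`phi x (shift α p) = ∑ a, (X + α x)^a * phi x (shift α (cf x a p))`, and
`phi x (shift α (cf x a p)) = C (shift α (cf x a p))` since `cf x a p` does not contain `x`. -/
def SHP_stmt : Prop := ∀ (n : ℕ) (K : Type u) [Field K] (w : ℕ) (l : List (Fin n))
  (S : Set (MvPolynomial (Fin n) K)) (α : Fin n → K), RP w l S → RP w l (shift α '' S)

/-- FRP. From branching programs to Nisan's condition. For a duplicate free list `l`, the set of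
all `uᵀ (∏_{x ∈ l} M x (X x)) v`, `u` arbitrary, `v` fixed: it is spanned by `w` polynomials, and
`cf x j` replaces `u` by `uᵀ (M x)_j` for the first element `x` of `l` (the other matrices do not
contain `x`). Compare `RIN` and `COE` in the library `VC`. -/
def FRP_stmt : Prop := ∀ (n : ℕ) (K : Type u) [Field K] (w : ℕ) (τ : Equiv.Perm (Fin n))
  (A : MvPolynomial (Fin n) K), IsROABPOrd τ w A → RP w (List.ofFn τ) {A}

/-- TOP. The converse (Nisan), for a list `l` of all the variables. By induction on a duplicate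
free `l`, for sets `S` of polynomials all of whose variables are in `l`: there are matrices `M x`
and a vector `v` such that every `p ∈ S` is `uᵀ (∏_{x ∈ l} M x (X x)) v` for some `u`.
`l = []`: `p` is a constant, `w = 0` only if `S ⊆ {0}`, otherwise `v = (1,...,1)` and `u` a
multiple of a unit vector. `l = x :: s`: the induction hypothesis for
`S' = {cf x j p | p ∈ S}`, hence for all of `span S'`; choose `g : Fin w → _` in `span S` with
`S ⊆ span (range g)` (a basis of `span S`, extended by zeros), `cf x j (g a) = (u a j)ᵀ ∏ v`, and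
`M x = ∑ j, X^j (u a j)`; `g a = ∑ j, X x ^ j * cf x j (g a)`. Compare `NIS` in `VC` (it is also
possible to deduce TOP from `NIS` and `POL_abp_roabp`). -/
def TOP_stmt : Prop := ∀ (n : ℕ) (K : Type u) [Field K] (w : ℕ) (l : List (Fin n))
  (A : MvPolynomial (Fin n) K), l.Perm (List.finRange n) → RP w l {A} → IsROABP w A

/-- LIN. `line α p` has the coefficients `homogeneousComponent j (p (α + X))`. First for `α = 0`
(monomials), then `line α = line 0 ∘ shift α` (algebra homomorphisms which agree on variables). -/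
def LIN_stmt : Prop := ∀ (n : ℕ) (K : Type u) [CommRing K] (α : Fin n → K)
  (p : MvPolynomial (Fin n) K) (j : ℕ),
  PowerSeries.coeff j (line α p) = homogeneousComponent j (shift α p)

/-- LRX. Calculus of `LR`, from MNP, SPP, UNP, PRP: `JJ D (g * h)` is contained in the span of the
products of `JJ D g` and `JJ D h`, `JJ D (∑ h i)` in the span of the union, `JJ D (dz h)` in the
span of `JJ (D+1) h` (`PowerSeries.coeff_derivative`), and so on. -/
def LRX_stmt : Prop := ∀ (n : ℕ) (K : Type u) [Field K] (l : List (Fin n)),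
  (∀ (w w' D D' : ℕ) (h : PowerSeries (MvPolynomial (Fin n) K)), w ≤ w' → D ≤ D' →
    LR w l D' h → LR w' l D h) ∧
  (∀ (w w' D : ℕ) (g h : PowerSeries (MvPolynomial (Fin n) K)), LR w l D g → LR w' l D h →
    LR (w * w') l D (g * h)) ∧
  (∀ (w m D : ℕ) (h : Fin m → PowerSeries (MvPolynomial (Fin n) K)), (∀ i, LR w l D (h i)) →
    LR (m * w) l D (∑ i, h i)) ∧
  (∀ (w w' D : ℕ) (g h : PowerSeries (MvPolynomial (Fin n) K)), LR w l D g → LR w' l D h →
    LR (w + w') l D (g + h) ∧ LR (w + w') l D (g - h)) ∧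
  (∀ (w D : ℕ) (h : PowerSeries (MvPolynomial (Fin n) K)), LR w l (D + 1) h →
    LR w l D (dz h)) ∧
  (∀ (w D : ℕ) (h : PowerSeries (MvPolynomial (Fin n) K)) (a : K), LR w l D h →
    LR w l D (PowerSeries.C (C a) * h)) ∧
  (∀ D : ℕ, LR 1 l D (1 : PowerSeries (MvPolynomial (Fin n) K))) ∧
  ∀ w D : ℕ, LR w l D (0 : PowerSeries (MvPolynomial (Fin n) K))

/-- LNA. From FRP, SHP, HOP, MNP, LIN: `JJ D (line α A)` consists of the homogeneous components up
to degree `D` of the element of `shift α '' {A}`. -/
def LNA_stmt : Prop := ∀ (n : ℕ) (K : Type u) [Field K] (w D : ℕ) (τ : Equiv.Perm (Fin n))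
  (A : MvPolynomial (Fin n) K) (α : Fin n → K), IsROABPOrd τ w A →
  LR (w * (D + 1)) (List.ofFn τ) D (line α A)

/-- SM1. From FRP, SHP, UNP, SYP, HOP, SPP, MNP: the set of the
`shift α (g i) - C (eval α (g i))` lies in the span of the union of `{1}` and the
`shift α '' {g i}`, so it satisfies `RP (c * c + 1)` (`RP 1 l {1}` is easy: all `cf x j 1` are `1`
or `0`); then SYP with `D` and HOP with `D`. (For the union of sets of widths `c` and `1` use
UNP with `c + 1` sets of width `max`, or a direct proof; the width `(c+1)*(c+1)` is allowed by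
the bound.) -/
def SM1_stmt : Prop := ∀ (n : ℕ) (K : Type u) [Field K] (c D : ℕ) (τ : Equiv.Perm (Fin n))
  (g : Fin c → MvPolynomial (Fin n) K) (α : Fin n → K), (∀ i, IsROABPOrd τ c (g i)) →
  RP ((D + 1) ^ ((c + 1) * (c + 1)) * (D + 1)) (List.ofFn τ) (VV D g α)

/-- SM2. Put `v i = shift α (g i) - C (eval α (g i))`, without constant term. Then
`line α (aeval g Q) = line 0 (aeval v Q')` with `Q' = Q (X + eval α (g i))`, and
`coeff j (line 0 p) = homogeneousComponent j p` (LIN for `α = 0`, `shift 0 = id`). For `j ≤ D` the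
component `homogeneousComponent j (aeval v q)` is `∑ e, coeff e q • homogeneousComponent j (v^e)`,
and `homogeneousComponent j (v^e) = 0` if `|e| > D ≥ j`; so `JJ D (line 0 (aeval v q))` is
contained in the span of `VV D g α`. For the inverse `y` of `h = line 0 (aeval v q)`: the constant
coefficient of `h` is `C q₀`, `q₀ = coeff 0 q ≠ 0`, put
`q' = q₀⁻¹ * ∑ t ≤ D, (1 - q₀⁻¹ q)^t`; then `h * line 0 (aeval v q') = 1 - (1 - q₀⁻¹ h)^(D+1)`,
so `y - line 0 (aeval v q') = y * (1 - q₀⁻¹ h)^(D+1)` is divisible by `z^(D+1)`. -/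
def SM2_stmt : Prop := ∀ (n : ℕ) (K : Type u) [Field K] (c D : ℕ)
  (g : Fin c → MvPolynomial (Fin n) K) (α : Fin n → K) (Q : MvPolynomial (Fin c) K),
  JJ D (line α (aeval g Q)) ⊆ (Submodule.span K (VV D g α) : Set (MvPolynomial (Fin n) K)) ∧
  ∀ y : PowerSeries (MvPolynomial (Fin n) K), line α (aeval g Q) * y = 1 →
    JJ D y ⊆ (Submodule.span K (VV D g α) : Set (MvPolynomial (Fin n) K))

/-- SML. From SM1 (for `D + 1` and `D`), SM2, SPP, PRP, MNP and LRX. -/
def SML_stmt : Prop := ∀ (n : ℕ) (K : Type u) [Field K] (c D : ℕ) (τ : Equiv.Perm (Fin n))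
  (P : MvPolynomial (Fin n) K) (α : Fin n → K) (y : PowerSeries (MvPolynomial (Fin n) K)),
  IsLocal τ c P → line α P * y = 1 →
  LR ((D + 2) ^ (2 * ((c + 1) * (c + 1) + 1))) (List.ofFn τ) D (dz (line α P) * y)

/-- The bound in LHI. -/
def hbound (c w D : ℕ) : ℕ :=
  2 * ((c + 1) * ((w + 1) * (D + 2)) ^ c * ((w + 1) * (D + 2) ^ (2 * ((c + 1) * (c + 1) + 1))))

/-- LHI. From LNA, SML, LRX. Products over `Fin c` and over `univ.erase j` (at most `c` factors,
together with `dz (line α (A j))` exactly `c` factors of width `w * (D + 2)`), sums over `Fin c`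
and `Fin w`. The factors `(a j : B)` are `C (C a)`. Here there are `m` local factors, `m ≤ w + 1`
is not needed if `m = w`. -/
def LHI_stmt : Prop := ∀ (n : ℕ) (K : Type u) [Field K] (c w D : ℕ) (τ : Equiv.Perm (Fin n))
  (A : Fin c → MvPolynomial (Fin n) K) (P : Fin w → MvPolynomial (Fin n) K) (α : Fin n → K)
  (y : Fin w → PowerSeries (MvPolynomial (Fin n) K)) (a : Fin c → ℕ) (p : Fin w → ℕ),
  (∀ j, IsROABPOrd τ (w + 1) (A j)) → (∀ j, IsLocal τ c (P j)) →
  (∀ j, line α (P j) * y j = 1) →
  LR (hbound c w D) (List.ofFn τ) D (∏ j, line α (A j)) ∧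
  LR (hbound c w D) (List.ofFn τ) D
    (hl dz (fun j => line α (A j)) (fun j => line α (P j)) y a p)

/-- The width after `s` steps. -/
def wd (W : ℕ) : ℕ → ℕ
  | 0 => 1
  | s + 1 => 4 * W * wd W s ^ 2

/-- RUN. The rank of the recursion, from LRX. Induction on `L` for all `D`: the induction
hypothesis for `D + 1`, `ρ` and `C` have the width `wd W |L|` up to degree `D + 1`, hence their
derivatives up to degree `D`; every new element is a signed sum of four products of three
factors, of widths `wd W |L|`, `W`, `wd W |L|` (for `C m` with `m > 0`, `d (C m) + C (m - 1)` has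
twice the width of `C`: write the product as `ρ t * Lam * d (C m) + ρ t * Lam * C (m-1)`). -/
def RUN_stmt : Prop := ∀ (n : ℕ) (K : Type u) [Field K] (c W : ℕ) (l : List (Fin n))
  (Lam : PowerSeries (MvPolynomial (Fin n) K)) (h : Fin c → PowerSeries (MvPolynomial (Fin n) K))
  (L : List (Fin c)) (D : ℕ), LR W l (D + L.length) Lam → (∀ i, LR W l (D + L.length) (h i)) →
  (∀ i, LR (wd W L.length) l D ((run dz Lam h L).1 i)) ∧
  ∀ m, LR (wd W L.length) l D ((run dz Lam h L).2 m)

/-! ### Block N: normalisation and reduction -/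

/-- NRM. Finitely many coefficients of a valuation ring: choose a nonzero coefficient which
divides, over `R`, all the other coefficients of all the polynomials (divisibility over `R` is a
total preorder of `K`) and divide by it; one coefficient becomes `1`. -/
def NRM_stmt : Prop := ∀ (R K k : Type u) [CommRing R] [IsDomain R] [ValuationRing R] [Field K]
  [Algebra R K] [IsFractionRing R K] [Field k] (π : R →+* k) (σ : Type) [Finite σ] (r : ℕ)
  (F : ℕ → MvPolynomial σ K), (∃ m ≤ r, F m ≠ 0) →
  ∃ (lam : K) (F' : ℕ → MvPolynomial σ R), lam ≠ 0 ∧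
    (∀ m ≤ r, MvPolynomial.map (algebraMap R K) (F' m) = C lam * F m) ∧
    ∃ m ≤ r, MvPolynomial.map π (F' m) ≠ 0

/-- NZR. Normalised representation. Zero factors are replaced by `1` (and `κ i` by `0` if the
exponent of a zero factor in the term `i` is positive), `P j` by `lam * P j` with `lam` of NRM
(`r = 0`) and `κ i` by `κ i * ∏ lam_j⁻¹ ^ p i j`. The constant `1` and padded programs have width
`w + 1`; `lam * P` is a local factor (multiply `Q`), `1` also (`Q = 1`). -/
def NZR_stmt : Prop := ∀ (R K k : Type u) [CommRing R] [IsDomain R] [ValuationRing R] [Field K]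
  [Algebra R K] [IsFractionRing R K] [Field k] (π : R →+* k) (n c w : ℕ)
  (G : MvPolynomial (Fin n) K), IsSumPow c w G →
  ∃ (τ : Equiv.Perm (Fin n)) (A : Fin c → MvPolynomial (Fin n) K)
    (P : Fin w → MvPolynomial (Fin n) R) (κ : Fin c → K) (a : Fin c → Fin c → ℕ)
    (p : Fin c → Fin w → ℕ),
    (∀ j, IsROABPOrd τ (w + 1) (A j)) ∧ (∀ j, A j ≠ 0) ∧
    (∀ j, IsLocal τ c (MvPolynomial.map (algebraMap R K) (P j))) ∧
    (∀ j, MvPolynomial.map π (P j) ≠ 0) ∧
    G = ∑ i, C (κ i) * (∏ j, A j ^ a i j) *
      ∏ j, (MvPolynomial.map (algebraMap R K) (P j)) ^ p i j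

/-- GEN. A nonzero polynomial over an infinite field has a point where it does not vanish
(`MvPolynomial.funext` for `Fin m`, rename, or `MvPolynomial.funext_set`-like lemmas). -/
def GEN_stmt : Prop := ∀ (k : Type u) [Field k] [Infinite k] (n : ℕ)
  (q : MvPolynomial (Fin n ⊕ Fin n) k), q ≠ 0 → ∃ α β : Fin n → k, eval (Sum.elim α β) q ≠ 0

/-- EXR. The exact relation over a field `K`, from REL, KIL, EXP, DER: take `B` the polynomials in
positions and directions, `Lam = (∏ emb (A j)) * (∏ emb (P j)) ≠ 0` (`emb` is injective), `h i` as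
in EXP, `E i` the terms; `∑ E i = emb G`. -/
def EXR_stmt : Prop := ∀ (K : Type u) [Field K] (n c w : ℕ) (A : Fin c → MvPolynomial (Fin n) K)
  (P : Fin w → MvPolynomial (Fin n) K) (κ : Fin c → K) (a : Fin c → Fin c → ℕ)
  (p : Fin c → Fin w → ℕ), (∀ j, A j ≠ 0) → (∀ j, P j ≠ 0) →
  ∃ L : List (Fin c), L.length ≤ c ∧
    (run DD ((∏ j, emb (A j)) * ∏ j, emb (P j))
      (fun i => hh DD (fun j => emb (A j)) (fun j => emb (P j)) (a i) (p i)) L).2 L.length ≠ 0 ∧
    ∑ m ∈ Finset.range (L.length + 1),
      (run DD ((∏ j, emb (A j)) * ∏ j, emb (P j))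
        (fun i => hh DD (fun j => emb (A j)) (fun j => emb (P j)) (a i) (p i)) L).2 m *
        DD^[m] (emb (∑ i, C (κ i) * (∏ j, A j ^ a i j) * ∏ j, P j ^ p i j)) = 0

/-- RED. The differential equation along a line, over `R` (the coefficients `N m`), from EXR, NRM,
GEN, CMP, HHL, DER, DEM. Let `Cf m` be the coefficients of EXR. NRM for `m ≤ |L|` gives `lam` and
`F' m` over `R`, `r = max {m ≤ |L| | map π (F' m) ≠ 0}`. The relation
`∑ F' m * DD^[m] (emb f) = 0` holds over `R` (injectivity of `R → K`), hence over `k` with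
`m ≤ r`. By GEN choose `α, β` over `k` where `map π (F' r) * ∏ emb (map π (P j))` does not vanish,
and lift `α` to `α'`, `β` to `β'` over `R` (`π` surjective). The power series
`U = ∏ j, line α' (P j)` over `R` has the constant coefficient `C` of a unit of `R` (`π` is local),
so it has an inverse `U'`, and so has every `line α' (P j)`. Put
`N m = line2 α' (F' m) * U' ^ (2 ^ |L| - 1)`. (1): apply `line2 (π ∘ α')` to the relation over `k`
and multiply by the power of the inverse. (2): DER. (3): by CMP with `σ = line2`, `u = ∏ line P`,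
and HHL. -/
def RED_stmt : Prop := ∀ (R K k : Type u) [CommRing R] [IsDomain R] [ValuationRing R] [Field K]
  [Algebra R K] [IsFractionRing R K] [Field k] [Infinite k] (π : R →+* k),
  Function.Surjective π → (∀ x, π x ≠ 0 → IsUnit x) → ∀ (n c w : ℕ)
  (f : MvPolynomial (Fin n) R)
  (A : Fin c → MvPolynomial (Fin n) K) (P : Fin w → MvPolynomial (Fin n) R) (κ : Fin c → K)
  (a : Fin c → Fin c → ℕ) (p : Fin c → Fin w → ℕ), (∀ j, A j ≠ 0) →
  (∀ j, MvPolynomial.map π (P j) ≠ 0) →
  MvPolynomial.map (algebraMap R K) f = ∑ i, C (κ i) * (∏ j, A j ^ a i j) *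
      ∏ j, (MvPolynomial.map (algebraMap R K) (P j)) ^ p i j →
  ∃ (r : ℕ) (L : List (Fin c)) (α β : Fin n → R) (lam : K)
    (N : ℕ → PowerSeries (MvPolynomial (Fin n) R))
    (y : Fin w → PowerSeries (MvPolynomial (Fin n) K)), r ≤ L.length ∧ L.length ≤ c ∧
    ∑ m ∈ Finset.range (r + 1), PowerSeries.map (MvPolynomial.map π) (N m) *
      dz^[m] (line (fun l => π (α l)) (MvPolynomial.map π f)) = 0 ∧
    eval (fun l => π (β l)) (PowerSeries.coeff 0
      (PowerSeries.map (MvPolynomial.map π) (N r))) ≠ 0 ∧
    (∀ j, line (fun l => algebraMap R K (α l)) (MvPolynomial.map (algebraMap R K) (P j)) *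
      y j = 1) ∧
    ∀ m ≤ r, PowerSeries.map (MvPolynomial.map (algebraMap R K)) (N m) =
      PowerSeries.C (C lam) *
      (run dz (∏ j, line (fun l => algebraMap R K (α l)) (A j))
        (fun i => hl dz (fun j => line (fun l => algebraMap R K (α l)) (A j))
          (fun j => line (fun l => algebraMap R K (α l))
            (MvPolynomial.map (algebraMap R K) (P j))) y (a i) (p i)) L).2 m

/-- RCO. Reduction of a polynomial of small rank, from DEM, SHP, HOP, MNP, TOP, POL (for one summand)
and CST: the polynomial `homogeneousComponent h (shift β q)` over `R` becomes over `K` an element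
of the set in HOP for the set `shift β '' {q}`, hence a program of width `ρ * (h + 1)`; POL gives a
program of width `ρ * (h + 1) + 1` over `k` for its reduction, whose individual degrees are at most
`h`. -/
def RCO_stmt : Prop := ∀ (R K k : Type u) [CommRing R] [IsDomain R] [ValuationRing R] [Field K]
  [Algebra R K] [IsFractionRing R K] [Field k] (π : R →+* k) (n ρ h : ℕ) (l : List (Fin n))
  (q : MvPolynomial (Fin n) R) (β : Fin n → R), l.Perm (List.finRange n) →
  RP ρ l {MvPolynomial.map (algebraMap R K) q} →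
  ComputedIn (homogeneousComponent h (shift (fun x => π (β x)) (MvPolynomial.map π q)))
    (8 * (n + 1) * (h + 1) * (ρ * (h + 1) + 2) ^ 2 + 1)

/-! ### Block C: complexity -/

/-- SDG. Polynomials of small degree: at most `(n+1)^r` monomials of degree at most `r` (a monomial
of degree `≤ r` is the product of a list of `r` elements of `Option (Fin n)`), each with a
coefficient costs at most `r` multiplications, and one addition. -/
def SDG_stmt : Prop := ∀ (n r : ℕ) (k : Type u) [Field k] (f : MvPolynomial (Fin n) k),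
  f.totalDegree ≤ r → ComputedIn f ((n + 1) ^ r * (r + 2))

/-- SUB. Translation costs `n` operations: first compute all `X l + γ l`, then follow the program
of `p` with these instead of the variables. -/
def SUB_stmt : Prop := ∀ (n s : ℕ) (k : Type u) [Field k] (p : MvPolynomial (Fin n) k)
  (γ : Fin n → k), ComputedIn p s → ComputedIn (shift γ p) (s + n)

/-- ODA. The recursion for the components of the solution of the differential equation. Let
`f_t = homogeneousComponent t (shift α f)` (the coefficient of `z^t` in `line α f`, LIN),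
`F t h = homogeneousComponent h (shift β f_t)`,
`M m i h = homogeneousComponent h (shift β (coeff i (c m)))`. The coefficient of `z^j` of the
relation is `∑ m ≤ r, ∑ i ≤ j, coeff i (c m) * ((j-i+1).ascFactorial m) * f_(j-i+m) = 0`
(`PowerSeries.coeff_mul`, `PowerSeries.coeff_iterate_derivative`; `dz` is
`PowerSeries.derivative`). Apply `shift β` and take the component of degree `h` (component of a
product is the sum of products of components). The term `m = r, i = 0`, component `0` of
`coeff 0 (c r)` is the constant `C q`, `q = eval β (coeff 0 (c r)) ≠ 0`, times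
`(j+1).ascFactorial r * F (j+r) h`, and `(j+1).ascFactorial r ≠ 0` in characteristic zero. -/
def ODA_stmt : Prop := ∀ (n r : ℕ) (k : Type u) [Field k] [CharZero k]
  (f : MvPolynomial (Fin n) k) (α β : Fin n → k)
  (c : ℕ → PowerSeries (MvPolynomial (Fin n) k)),
  ∑ m ∈ Finset.range (r + 1), c m * dz^[m] (line α f) = 0 →
  eval β (PowerSeries.coeff 0 (c r)) ≠ 0 → ∀ j h : ℕ, ∃ κ : ℕ → ℕ → ℕ → k,
    κ r 0 0 = 0 ∧
    homogeneousComponent h (shift β (homogeneousComponent (j + r) (shift α f))) =
      ∑ m ∈ Finset.range (r + 1), ∑ i ∈ Finset.range (j + 1), ∑ a ∈ Finset.range (h + 1),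
        C (κ m i a) * homogeneousComponent a (shift β (PowerSeries.coeff i (c m))) *
          homogeneousComponent (h - a)
            (shift β (homogeneousComponent (j - i + m) (shift α f)))

/-- ODC. Complexity of the recursion. Order the pairs `(t, h)`, `t, h ≤ d`, lexicographically and
compute first all `M m i a` (`(r+1)(d+1)^2` polynomials, `s` operations each), then all `F t h`
with `t < r` (`s'` operations each), then the others, each with at most
`(r+1)(d+1)^2 * 3 + 1` operations from the earlier ones: in the term `(m, i, a)` with nonzero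
coefficient the pair `(j - i + m, h - a)` is smaller than `(j + r, h)`. Use the calculus `CST_E` of
`Pool.Agent.helper22.VC.CST`. The conclusion: the sum of all `F t h`. -/
def ODC_stmt : Prop := ∀ (n r d s s' : ℕ) (k : Type u) [Field k]
  (M : ℕ → ℕ → ℕ → MvPolynomial (Fin n) k) (F : ℕ → ℕ → MvPolynomial (Fin n) k),
  (∀ m ≤ r, ∀ i ≤ d, ∀ a ≤ d, ComputedIn (M m i a) s) →
  (∀ t < r, ∀ h ≤ d, ComputedIn (F t h) s') →
  (∀ j h : ℕ, ∃ κ : ℕ → ℕ → ℕ → k, κ r 0 0 = 0 ∧
    F (j + r) h = ∑ m ∈ Finset.range (r + 1), ∑ i ∈ Finset.range (j + 1),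
      ∑ a ∈ Finset.range (h + 1), C (κ m i a) * M m i a * F (j - i + m) (h - a)) →
  ComputedIn (∑ t ∈ Finset.range (d + 1), ∑ h ∈ Finset.range (d + 1), F t h)
    ((r + 1) * (d + 1) ^ 2 * s + r * (d + 1) * s' + (d + 1) ^ 2 * (5 * (r + 1) * (d + 1) ^ 2 + 2))

/-- The bound in ODE. -/
def obound (n r d s : ℕ) : ℕ :=
  (r + 1) * (d + 1) ^ 2 * s + r * (d + 1) * ((n + 1) ^ r * (r + 2)) +
    (d + 1) ^ 2 * (5 * (r + 1) * (d + 1) ^ 2 + 2) + n

/-- ODE. From ODA, ODC, SDG, SUB:
`f = shift (-(α+β)) (∑ t ≤ d, ∑ h ≤ d, homogeneousComponent h (shift β (homogeneousComponent t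
(shift α f))))`, since `shift α f` has degree at most `d` and so have its components and their
translates. For `t < r` the polynomial `homogeneousComponent h (shift β ...)` has degree at most
`t ≤ r` (or is zero). -/
def ODE_stmt : Prop := ∀ (n r d s : ℕ) (k : Type u) [Field k] [CharZero k]
  (f : MvPolynomial (Fin n) k) (α β : Fin n → k)
  (c : ℕ → PowerSeries (MvPolynomial (Fin n) k)), f.totalDegree ≤ d →
  ∑ m ∈ Finset.range (r + 1), c m * dz^[m] (line α f) = 0 →
  eval β (PowerSeries.coeff 0 (c r)) ≠ 0 →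
  (∀ m ≤ r, ∀ i ≤ d, ∀ a ≤ d,
    ComputedIn (homogeneousComponent a (shift β (PowerSeries.coeff i (c m)))) s) →
  ComputedIn f (obound n r d s)

/-! ### The end -/

/-- The bound in MAI. -/
def mbound (c n w d : ℕ) : ℕ :=
  obound n c d (8 * (n + 1) * (d + 1) *
    (wd (hbound c w (d + c)) c * (d + 1) + 2) ^ 2 + 1)

/-- MAI. The main theorem over a valuation ring, from NZR, RED, LHI, RUN, LRX, RCO, ODE, MNP: for
`m ≤ r`, `i ≤ d` the polynomial `coeff i (N m)` over `K` is the scalar `lam` times the coefficient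
of `run`, so it satisfies `RP (wd (hbound c w (d + c)) c)` (monotonicity in the number of steps:
`wd W` is monotone as `W ≥ 1`; RUN with `D = d`, `d + |L| ≤ d + c`). -/
def MAI_stmt : Prop := ∀ (R K k : Type u) [CommRing R] [IsDomain R] [ValuationRing R] [Field K]
  [Algebra R K] [IsFractionRing R K] [Field k] [CharZero k] (π : R →+* k),
  Function.Surjective π → (∀ x, π x ≠ 0 → IsUnit x) → ∀ (n c w d : ℕ)
  (f : MvPolynomial (Fin n) R), IsSumPow c w (MvPolynomial.map (algebraMap R K) f) →
  (MvPolynomial.map π f).totalDegree ≤ d →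
  ComputedIn (MvPolynomial.map π f) (mbound c n w d)

/-- RTW. From `k(ε)` to `k((ε))`; compare `RTF` in `VC` (`Pool.Agent.helper44.VC.RTF`, the lemmas
`RTF_roabp`, `RTF_ps_*`): `IsSumPow` is preserved by field homomorphisms. -/
def RTW_stmt : Prop := ∀ (k : Type u) [Field k] (n c w : ℕ) (f : MvPolynomial (Fin n) k)
  (F : MvPolynomial (Fin n) (RatFunc k)), IsSumPow c w F → SpecializesTo F f →
  ∃ G : MvPolynomial (Fin n) (PowerSeries k),
    IsSumPow c w (MvPolynomial.map (algebraMap (PowerSeries k) (LaurentSeries k)) G) ∧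
    MvPolynomial.map (PowerSeries.constantCoeff (R := k)) G = f

/-- MBD. The bound is polynomial for constant `c`. A function `g n w d` is called small if
`g n w d ≤ (n + w + d + 2)^E` for some `E`; small functions are closed under sums, products and
constant powers and contain the constants, `n`, `w`, `d`. -/
def MBD_stmt : Prop := ∀ c : ℕ, ∃ E : ℕ, ∀ n w d : ℕ, mbound c n w d ≤ (n + w + d + 2) ^ E

/-- FIW. The result, from MAI (with `R = k[[ε]]`, `K = k((ε))`), RTW, MBD, and the library facts
PBD, VNV. For families: `(v + w + deg + 2)^E` is polynomially bounded. -/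
def FIW_stmt : Prop := ∀ (k : Type u) [Field k] [CharZero k] (c : ℕ),
  (∃ E : ℕ, ∀ (n w : ℕ) (f : MvPolynomial (Fin n) k) (G : MvPolynomial (Fin n) (RatFunc k)),
    IsSumPow c w G → SpecializesTo G f →
    complexity f ≤ (n + w + f.totalDegree + 2) ^ E) ∧
  ∀ (F : Family k) (w : ℕ → ℕ), F.IsP → PolyBdd w →
    (∀ n, ∃ G : MvPolynomial (Fin (F.v n)) (RatFunc k),
      IsSumPow c (w n) G ∧ SpecializesTo G (F.f n)) → F ∈ VP k ∧ F ∈ VNP k

end Pool.Agent.WD
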